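import Pool.Agent.W787.QC.Defs

/-!
# QC-MP: the main proposition
-/

open MeasureTheory Set Metric Filter Topology Real
open scoped ContDiff

noncomputable section

namespace Pool.Agent.W402.QC

open Pool.Agent.W787.QC

lemma slice {f : ℝ → E → ℝ} (hf : ContDiff ℝ ∞ (fun z : ℝ × E => f z.1 z.2)) (s : ℝ) :
    ContDiff ℝ ∞ (f s) := by
  have h : ContDiff ℝ ∞ (fun y : E => ((s, y) : ℝ × E)) := contDiff_const.prodMk contDiff_id
  exact hf.comp h

theorem mp (h1 : S_BL) (h2 : S_W) (h3 : S_Q0) (h4 : S_PHI) (h5 : S_DEN) (h6 : S_CONT)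
    (h7 : S_M2) : S_MP := by
  intro n hn
  obtain ⟨-, -, bl3, bl4, bl5⟩ := h1
  obtain ⟨-, -, -, -, hq, hm⟩ := h3
  have hn0 : (0 : ℝ) < n := by exact_mod_cast hn
  set δ₀ : ℝ := 1 / (4 * (n : ℝ) ^ 2) with hδ₀
  have hδ₀pos : 0 < δ₀ := by positivity
  have h2δ : 2 * δ₀ < 1 / (n : ℝ) ^ 2 := by
    have h : 1 / (n : ℝ) ^ 2 = 4 * δ₀ := by
      rw [hδ₀]
      field_simp
    rw [h]
    linarith
  obtain ⟨p, Φ, hp, hΦ, hpb, heq⟩ := h4 δ₀ hδ₀pos
  -- the slices at `s = 0`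
  have hm0 : ContDiff ℝ ∞ (m 0) := slice hm 0
  have hm0c : Continuous (m 0) := hm0.continuous
  have hDm0c : Continuous (fderiv ℝ (m 0)) := hm0.continuous_fderiv (by simp)
  obtain ⟨K1, hK1⟩ := (isCompact_closedBall (0 : E) (n : ℝ)).exists_bound_of_continuousOn
    hm0c.continuousOn
  obtain ⟨K2, hK2⟩ := (isCompact_closedBall (0 : E) (n : ℝ)).exists_bound_of_continuousOn
    hDm0c.continuousOn
  have h0mem : (0 : E) ∈ closedBall (0 : E) (n : ℝ) := mem_closedBall_self hn0.le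
  have hK1n : 0 ≤ K1 := (norm_nonneg _).trans (hK1 0 h0mem)
  have hK2n : 0 ≤ K2 := (norm_nonneg _).trans (hK2 0 h0mem)
  set K : ℝ := K1 + K2 + 1 with hK
  have hKpos : 0 < K := by positivity
  have hδ' : 0 < δ₀ / K := by positivity
  have hKδ : K1 * (δ₀ / K) + K2 * (δ₀ / K) ≤ δ₀ := by
    have h : K1 * (δ₀ / K) + K2 * (δ₀ / K) = (K1 + K2) / K * δ₀ := by ring
    rw [h]
    have h' : (K1 + K2) / K ≤ 1 := by
      rw [div_le_one hKpos]
      linarith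
    nlinarith
  obtain ⟨ψ, hψ, hψb⟩ := h5 Φ hΦ n (δ₀ / K) hn0 hδ'
  have hbψ : ContDiff ℝ ∞ (bil ψ) := bl3 ψ hψ
  set Θ : ℝ × E → ℝ := fun z =>
    Real.exp (-4 * (z.1 ^ 4 * ψ z.2)) * (q z.1 z.2 + m z.1 z.2 * bil ψ z.2) with hΘ
  have hΘs : ContDiff ℝ ∞ Θ := by
    have e1 : ContDiff ℝ ∞ (fun z : ℝ × E => ψ z.2) := hψ.comp contDiff_snd
    have e2 : ContDiff ℝ ∞ (fun z : ℝ × E => bil ψ z.2) := hbψ.comp contDiff_snd
    have e3 : ContDiff ℝ ∞ (fun z : ℝ × E => z.1 ^ 4) := contDiff_fst.pow 4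
    exact (Real.contDiff_exp.comp (contDiff_const.mul (e3.mul e1))).mul (hq.add (hm.mul e2))
  have hf : ContDiff ℝ ∞ (fun y => bil ψ y - Φ y) := hbψ.sub hΦ
  have hΘ0 : (fun z : E => Θ (0, z)) = fun z => p z + m 0 z * (bil ψ z - Φ z) := by
    funext z
    rw [← heq z, hΘ]
    simp only
    have e : Real.exp (-4 * ((0 : ℝ) ^ 4 * ψ z)) = 1 := by
      rw [show -4 * ((0 : ℝ) ^ 4 * ψ z) = 0 by ring, Real.exp_zero]
    rw [e]
    ring
  have hball : ∀ y ∈ closedBall (0 : E) (n : ℝ),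
      |Θ (0, y) - 6| < 1 / (n : ℝ) ^ 2 ∧ ‖fderiv ℝ (fun z => Θ (0, z)) y‖ < 1 / (n : ℝ) ^ 2 := by
    intro y hy
    have b1 := hK1 y hy
    have b2 := hK2 y hy
    obtain ⟨b3, b4⟩ := hψb y hy
    obtain ⟨b5, b6⟩ := hpb y
    rw [Real.norm_eq_abs] at b1
    constructor
    · have e := congrFun hΘ0 y
      rw [e]
      have e2 : p y + m 0 y * (bil ψ y - Φ y) - 6 = (p y - 6) + m 0 y * (bil ψ y - Φ y) := by ring
      rw [e2]
      have e3 : |m 0 y * (bil ψ y - Φ y)| ≤ K1 * (δ₀ / K) := by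
        rw [abs_mul]
        exact mul_le_mul b1 b3 (abs_nonneg _) hK1n
      have e4 : 0 ≤ K2 * (δ₀ / K) := by positivity
      calc |p y - 6 + m 0 y * (bil ψ y - Φ y)|
          ≤ |p y - 6| + |m 0 y * (bil ψ y - Φ y)| := abs_add_le _ _
        _ ≤ δ₀ + δ₀ := by linarith
        _ < 1 / (n : ℝ) ^ 2 := by linarith
    · rw [hΘ0]
      have d1 : DifferentiableAt ℝ p y := (hp.differentiable (by simp)) y
      have d2 : DifferentiableAt ℝ (m 0) y := (hm0.differentiable (by simp)) y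
      have d3 : DifferentiableAt ℝ (fun y => bil ψ y - Φ y) y := (hf.differentiable (by simp)) y
      have e1 : fderiv ℝ (fun z => p z + m 0 z * (bil ψ z - Φ z)) y =
          fderiv ℝ p y + (m 0 y • fderiv ℝ (fun y => bil ψ y - Φ y) y +
            (bil ψ y - Φ y) • fderiv ℝ (m 0) y) := by
        have g := (d1.hasFDerivAt).add ((d2.hasFDerivAt).mul d3.hasFDerivAt)
        exact g.fderiv
      rw [e1]
      have e2 : ‖m 0 y • fderiv ℝ (fun y => bil ψ y - Φ y) y‖ ≤ K1 * (δ₀ / K) := by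
        rw [norm_smul, Real.norm_eq_abs]
        exact mul_le_mul b1 b4 (norm_nonneg _) hK1n
      have e3 : ‖(bil ψ y - Φ y) • fderiv ℝ (m 0) y‖ ≤ K2 * (δ₀ / K) := by
        rw [norm_smul, Real.norm_eq_abs, mul_comm]
        exact mul_le_mul b2 b3 (abs_nonneg _) hK2n
      calc ‖fderiv ℝ p y + (m 0 y • fderiv ℝ (fun y => bil ψ y - Φ y) y +
            (bil ψ y - Φ y) • fderiv ℝ (m 0) y)‖
          ≤ ‖fderiv ℝ p y‖ + ‖m 0 y • fderiv ℝ (fun y => bil ψ y - Φ y) y +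
            (bil ψ y - Φ y) • fderiv ℝ (m 0) y‖ := norm_add_le _ _
        _ ≤ ‖fderiv ℝ p y‖ + (‖m 0 y • fderiv ℝ (fun y => bil ψ y - Φ y) y‖ +
            ‖(bil ψ y - Φ y) • fderiv ℝ (m 0) y‖) := by gcongr; exact norm_add_le _ _
        _ ≤ δ₀ + δ₀ := by linarith
        _ < 1 / (n : ℝ) ^ 2 := by linarith
  obtain ⟨s₀, hs₀, hs₀b⟩ := h6 Θ n (1 / (n : ℝ) ^ 2) hΘs hn0 (by positivity) hball
  obtain ⟨s₁, hs₁, hs₁b⟩ := h7 (bil ψ) (max n 2) (1 / (n : ℝ)) hbψ.continuous (le_max_right _ _)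
    (by positivity)
  set s : ℝ := min s₀ s₁ / 2 with hs
  have hmin : 0 < min s₀ s₁ := lt_min hs₀ hs₁
  have hspos : 0 < s := by positivity
  have hss₀ : s < s₀ := lt_of_lt_of_le (by rw [hs]; linarith) (min_le_left _ _)
  have hss₁ : s < s₁ := lt_of_lt_of_le (by rw [hs]; linarith) (min_le_right _ _)
  obtain ⟨hW, hWb⟩ := h2 s hspos
  have hsψ : ContDiff ℝ ∞ (fun y => s ^ 4 * ψ y) := contDiff_const.mul hψ
  have hbv : ∀ x, bil (fun y => W s y + s ^ 4 * ψ y) x = bil (W s) x + s ^ 4 * bil ψ x := by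
    intro x
    rw [bl4 (W s) (fun y => s ^ 4 * ψ y) hW hsψ x, bl5 (s ^ 4) ψ hψ x]
  have hcurv : (fun z => Real.exp (-4 * (W s z + s ^ 4 * ψ z)) *
      bil (fun y => W s y + s ^ 4 * ψ y) z) = fun z => Θ (s, z) := by
    funext z
    obtain ⟨w1, -, w3⟩ := hWb z
    have e1 : Real.exp (-4 * (W s z + s ^ 4 * ψ z)) =
        Real.exp (-4 * (s ^ 4 * ψ z)) * Real.exp (-4 * W s z) := by
      rw [← Real.exp_add]
      congr 1
      ring
    have e2 : Real.exp (-4 * W s z) * Real.exp (4 * W s z) = 1 := by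
      rw [← Real.exp_add, show -4 * W s z + 4 * W s z = 0 by ring, Real.exp_zero]
    rw [hbv, w1, e1, hΘ]
    simp only
    rw [← w3]
    linear_combination Real.exp (-4 * (s ^ 4 * ψ z)) * q s z * e2
  refine ⟨fun y => W s y + s ^ 4 * ψ y, hW.add hsψ, ?_, ?_⟩
  · intro y hy
    obtain ⟨c1, c2⟩ := hs₀b s hspos hss₀ y (ball_subset_closedBall hy)
    constructor
    · have e := congrFun hcurv y
      show |Real.exp (-4 * (W s y + s ^ 4 * ψ y)) *
        bil (fun y => W s y + s ^ 4 * ψ y) y - 6| ≤ _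
      rw [e]
      exact c1.le
    · show ‖fderiv ℝ (fun z => Real.exp (-4 * (W s z + s ^ 4 * ψ z)) *
        bil (fun y => W s y + s ^ 4 * ψ y) z) y‖ ≤ _
      rw [hcurv]
      exact c2.le
  · intro r hr2 hrn
    have e := hs₁b s hspos hss₁ r hr2 (hrn.trans (le_max_left _ _))
    have e2 : (fun y : E => bil (fun y => W s y + s ^ 4 * ψ y) y) =
        fun y => 96 * s ^ 4 / (s ^ 2 + ‖y - e0‖ ^ 2) ^ 4
          + 96 * s ^ 4 / (s ^ 2 + ‖y + e0‖ ^ 2) ^ 4 + s ^ 4 * bil ψ y := by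
      funext y
      rw [hbv, (hWb y).2.1]
    show |(∫ y in ball (0 : E) r, bil (fun y => W s y + s ^ 4 * ψ y) y) - 32 * π ^ 2| ≤ _
    rw [e2]
    exact e

end Pool.Agent.W402.QC
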